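import Pool.Agent.Run7.h49.JT.Iface

/-!
# Piece U8 (MP_245e03_an, Q2): the upper estimate
-/

set_option autoImplicit false

open Pool.Agent.R277.JT Set Filter Topology

namespace Run7.h644.JT

open Run7.h49.JT

open Classical in
/-- the vector of the increments of `y` along the tree has James norm at most `B ‖x‖` -/
lemma incr_bound (h6 : S_U6) (h7 : S_U7) (y : ℕ → D Tree) {B : ℝ} (hB : 0 ≤ B) (x : Pre Tree)
    (N : ℕ)
    (h5 : ∀ s : Finset (ℕ × ℕ), (∀ q ∈ s, 1 ≤ q.1 ∧ anc q.1 q.2) →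
      (∀ q ∈ s, ∀ q' ∈ s, q ≠ q' → Disjoint (chain q.1 q.2) (chain q'.1 q'.2)) →
      ∑ q ∈ s, ((y q.2 - y (q.1 / 2)) x) ^ 2 ≤ B ^ 2 * ‖x‖ ^ 2) :
    ‖∑ t ∈ (Lev.fin (I := Tree) N).toFinset,
      ((y (io t) - y (io t / 2)) x) • (ev t : Pre Tree)‖ ≤ B * ‖x‖ := by
  obtain ⟨h61, h62, -, h64, h65⟩ := h6
  set w : ℕ → ℝ := fun n => y n x with hw
  set X : Pre Tree := ∑ t ∈ (Lev.fin (I := Tree) N).toFinset,
    ((y (io t) - y (io t / 2)) x) • (ev t : Pre Tree) with hX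
  have hss : ∀ S : Finset Tree, ss S X =
      ∑ t ∈ S.filter (fun i => i ∈ lo Tree N), (w (io t) - w (io t / 2)) := by
    intro S
    rw [hX, ss_sum]
    simp_rw [ss_smul, ss_ev, mul_ite, mul_one, mul_zero]
    rw [← Finset.sum_filter]
    have hset : (Lev.fin (I := Tree) N).toFinset.filter (fun i => i ∈ S) =
        S.filter (fun i => i ∈ lo Tree N) := by
      ext t
      rw [Finset.mem_filter, Finset.mem_filter, Set.Finite.mem_toFinset]
      exact ⟨fun h => ⟨h.2, h.1⟩, fun h => ⟨h.2, h.1⟩⟩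
    rw [hset]
    exact Finset.sum_congr rfl fun t _ => rfl
  apply norm_le_of (mul_nonneg hB (norm_nonneg x))
  intro P hP
  set P1 := P.filter (fun S => (S.filter (fun i => i ∈ lo Tree N)).Nonempty) with hP1
  have h1 : ∑ S ∈ P, (ss S X) ^ 2 = ∑ S ∈ P1, (ss S X) ^ 2 := by
    symm
    apply Finset.sum_subset (Finset.filter_subset _ _)
    intro S hS hS'
    have h0 : ¬ (S.filter (fun i => i ∈ lo Tree N)).Nonempty :=
      fun h => hS' (Finset.mem_filter.2 ⟨hS, h⟩)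
    rw [Finset.not_nonempty_iff_eq_empty] at h0
    rw [hss, h0, Finset.sum_empty, sq, mul_zero]
  have h2 : ∀ S : Finset Tree, ∃ be : Tree × Tree, S ∈ P1 → be.1 ≤ be.2 ∧
      ∀ c, c ∈ S.filter (fun i => i ∈ lo Tree N) ↔ be.1 ≤ c ∧ c ≤ be.2 := by
    intro S
    by_cases hS : S ∈ P1
    · obtain ⟨b, e, hbe, hc⟩ := seg_inter (hP.1 S (Finset.mem_filter.1 hS).1)
        (inferInstance : (lo Tree N).OrdConnected) (Finset.mem_filter.1 hS).2
      exact ⟨(b, e), fun _ => ⟨hbe, hc⟩⟩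
    · exact ⟨((show Tree from []), (show Tree from [])), fun h => absurd h hS⟩
  choose f hf using h2
  let g : Finset Tree → ℕ × ℕ := fun S => (io (f S).1, io (f S).2)
  have hdis : ∀ S ∈ P1, ∀ S' ∈ P1, S ≠ S' → Disjoint S S' := fun S hS S' hS' hne =>
    hP.2 (Finset.mem_coe.2 (Finset.mem_filter.1 hS).1)
      (Finset.mem_coe.2 (Finset.mem_filter.1 hS').1) hne
  have hmemS : ∀ S ∈ P1, ∀ c, (f S).1 ≤ c → c ≤ (f S).2 → c ∈ S := fun S hS c hc hc' =>
    (Finset.mem_filter.1 (((hf S hS).2 c).2 ⟨hc, hc'⟩)).1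
  have hg : Set.InjOn g P1 := by
    intro S hS S' hS' hgg
    by_contra hne
    have hS1 := Finset.mem_coe.1 hS
    have hS1' := Finset.mem_coe.1 hS'
    have e1 : (f S).1 = (f S').1 := h62 (congrArg Prod.fst hgg)
    have m1 : (f S).1 ∈ S := hmemS S hS1 _ le_rfl (hf S hS1).1
    have m2 : (f S).1 ∈ S' := by
      rw [e1]; exact hmemS S' hS1' _ le_rfl (hf S' hS1').1
    exact (Finset.disjoint_left.1 (hdis S hS1 S' hS1' hne)) m1 m2
  have h3 : ∑ S ∈ P1, (ss S X) ^ 2 = ∑ q ∈ P1.image g, ((y q.2 - y (q.1 / 2)) x) ^ 2 := by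
    rw [Finset.sum_image hg]
    apply Finset.sum_congr rfl
    intro S hS
    rw [hss, h7 ℝ w _ _ _ (hf S hS).1 (hf S hS).2]
    rfl
  rw [h1, h3, mul_pow]
  apply h5
  · intro q hq
    obtain ⟨S, hS, rfl⟩ := Finset.mem_image.1 hq
    exact ⟨h61 _, (h64 _ _).1 (hf S hS).1⟩
  · intro q hq q' hq' hne
    obtain ⟨S, hS, rfl⟩ := Finset.mem_image.1 hq
    obtain ⟨S', hS', rfl⟩ := Finset.mem_image.1 hq'
    have hne' : S ≠ S' := fun h => hne (by rw [h])
    change Disjoint (chain (io (f S).1) (io (f S).2)) (chain (io (f S').1) (io (f S').2))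
    rw [h65 _ _ (hf S hS).1, h65 _ _ (hf S' hS').1, Set.disjoint_left]
    rintro n ⟨c, hc, rfl⟩ ⟨c', hc', hcc⟩
    have e1 : c' = c := h62 hcc
    subst e1
    exact (Finset.disjoint_left.1 (hdis S hS S' hS' hne')) (hmemS S hS _ hc.1 hc.2)
      (hmemS S' hS' _ hc'.1 hc'.2)

/-- U8, the upper estimate. -/
theorem prove_U8 : S_U5 → S_U6 → S_U7 → S_U8 := by
  classical
  intro h5 h6 h7 y σ u I k K ε M hS θ hθ hG
  refine ⟨√(12 * M ^ 2 + 8 * θ ^ 2), fun a => ?_⟩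
  set B := √(12 * M ^ 2 + 8 * θ ^ 2) with hBdef
  have hB2 : B ^ 2 = 12 * M ^ 2 + 8 * θ ^ 2 := Real.sq_sqrt (by positivity)
  have hB : 0 ≤ B := Real.sqrt_nonneg _
  apply ContinuousLinearMap.opNorm_le_bound _ (mul_nonneg hB (norm_nonneg _))
  intro x
  obtain ⟨N, hN⟩ : ∃ N, ∀ t ∈ a.support, lev t < N :=
    ⟨a.support.sup lev + 1, fun t ht => Nat.lt_succ_of_le (Finset.le_sup (f := lev) ht)⟩
  have hX := incr_bound h6 h7 y hB x N (fun s hs1 hs2 => by
    rw [hB2]; exact h5 y σ u I k K ε M hS θ hθ hG s hs1 hs2 x)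
  set X : Pre Tree := ∑ t ∈ (Lev.fin (I := Tree) N).toFinset,
    ((y (io t) - y (io t / 2)) x) • (ev t : Pre Tree) with hXdef
  have hval : ∀ t ∈ a.support, X.val t = (y (io t) - y (io t / 2)) x := by
    intro t ht
    rw [hXdef, val_sum]
    simp_rw [val_smul, val_ev, mul_ite, mul_one, mul_zero]
    rw [Finset.sum_ite_eq', if_pos]
    rw [Set.Finite.mem_toFinset]
    exact hN t ht
  have hg : (Finsupp.linearCombination ℝ es a) X =
      (Finsupp.linearCombination ℝ (fun t => y (io t) - y (io t / 2)) a) x := by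
    rw [Finsupp.linearCombination_apply, Finsupp.linearCombination_apply, Finsupp.sum,
      Finsupp.sum, _root_.sum_apply, _root_.sum_apply]
    refine Finset.sum_congr rfl fun t ht => ?_
    rw [_root_.smul_apply, _root_.smul_apply, es_apply, hval t ht]
  rw [← hg]
  calc ‖(Finsupp.linearCombination ℝ es a) X‖
      ≤ ‖Finsupp.linearCombination ℝ es a‖ * ‖X‖ :=
        ContinuousLinearMap.le_opNorm _ _
    _ ≤ ‖Finsupp.linearCombination ℝ es a‖ * (B * ‖x‖) :=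
        mul_le_mul_of_nonneg_left hX (norm_nonneg _)
    _ = B * ‖Finsupp.linearCombination ℝ es a‖ * ‖x‖ := by ring

end Run7.h644.JT
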